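import Pool.Agent.Helper11.RRCA.Final

/-!
# Non-palindromic Poincaré series for restricted rational Cherednik algebras

For the complex reflection group `G(5,5,4)` and an explicit irreducible representation of
dimension `12`, the Poincaré series of the simple module `L_c(λ)` is
`12 + 24 q + 36 q² + 36 q³ + 12 q⁴` for every nonzero parameter `c`.  So the answer to Q1 of
`MP_b4b244_al` is negative.
-/

namespace Pool.Agent.Results.MP_b4b244_al.NonPalindromic

open Pool.Agent.Helper11.RRCA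

theorem root_eq {z : ℂ} (hz : z ^ 5 = 1) : ∃ a : ZMod 5, ψ a = z := by
  have hz0 : z ≠ 0 := by
    rintro rfl
    norm_num at hz
  obtain ⟨i, -, hi⟩ := (Complex.mem_rootsOfUnity 5 (Units.mk0 z hz0)).1 (by
    rw [mem_rootsOfUnity]
    apply Units.ext
    rw [Units.val_pow_eq_pow_val, Units.val_mk0, hz, Units.val_one])
  refine ⟨((i : ℤ) : ZMod 5), ?_⟩
  unfold ψ
  rw [ZMod.stdAddChar_coe]
  rw [Units.val_mk0] at hi
  rw [← hi]
  congr 1
  push_cast
  ring

theorem mem_G554_iff (g : V4 ≃ₗ[ℂ] V4) : g ∈ G554 ↔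
    ∃ (σ : Equiv.Perm (Fin 4)) (z : Fin 4 → ℂ), (∀ k, z k ^ 5 = 1) ∧ ∏ k, z k = 1 ∧
      ∀ v k, g v (σ k) = z k * v k := by
  constructor
  · rintro ⟨a, σ, ha, rfl⟩
    refine ⟨σ, fun k => ψ (a k), fun k => ?_, ?_, fun v k => ?_⟩
    · have := ψ_pow (a k) 1
      rwa [mul_one] at this
    · rw [← ψ_sum, ha, AddChar.map_zero_eq_one]
    · rw [mono_apply, monoL_apply, p_ia]
  · rintro ⟨σ, z, hz, hprod, hg⟩
    choose a ha using fun k => root_eq (hz k)
    refine ⟨a, σ, ?_, ?_⟩
    · apply ψ_inj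
      rw [ψ_sum, AddChar.map_zero_eq_one, ← hprod]
      exact Finset.prod_congr rfl fun k _ => ha k
    · refine LinearEquiv.ext fun v => ?_
      funext k
      have h := hg v (σ⁻¹ k)
      rw [p_ai] at h
      rw [h, mono_apply, monoL_apply, ha]

theorem exists_nonzero_param {R : Type} (f : MvPolynomial R ℂ)
    (h : ∃ t : ℂ, MvPolynomial.eval (fun _ => t) f ≠ 0) :
    ∃ t : ℂ, t ≠ 0 ∧ MvPolynomial.eval (fun _ => t) f ≠ 0 := by
  obtain ⟨t, ht⟩ := h
  let g : Polynomial ℂ := MvPolynomial.aeval (fun _ => Polynomial.X) f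
  have hg : ∀ s : ℂ, g.eval s = MvPolynomial.eval (fun _ => s) f := by
    intro s
    have h1 : (Polynomial.evalRingHom s).comp (MvPolynomial.aeval
        (fun _ : R => (Polynomial.X : Polynomial ℂ))).toRingHom =
        MvPolynomial.eval (fun _ => s) := by
      apply MvPolynomial.ringHom_ext
      · intro r
        simp
      · intro i
        simp
    exact congrArg (fun φ : MvPolynomial R ℂ →+* ℂ => φ f) h1
  have hg0 : g * Polynomial.X ≠ 0 := by
    refine mul_ne_zero ?_ Polynomial.X_ne_zero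
    intro h0
    apply ht
    rw [← hg t, h0, Polynomial.eval_zero]
  obtain ⟨s, hs⟩ : ∃ s, (g * Polynomial.X).eval s ≠ 0 := by
    by_contra hcon
    push Not at hcon
    exact hg0 (Polynomial.funext fun s => by rw [hcon s, Polynomial.eval_zero])
  rw [Polynomial.eval_mul, Polynomial.eval_X] at hs
  exact ⟨s, right_ne_zero_of_mul hs, by rw [← hg s]; exact left_ne_zero_of_mul hs⟩

theorem mem_range_iff (f : V4 →ₗ[ℂ] V4) : f ∈ Set.range R554.op ↔
    ∃ (σ : Equiv.Perm (Fin 4)) (z : Fin 4 → ℂ), (∀ k, z k ^ 5 = 1) ∧ ∏ k, z k = 1 ∧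
      ∀ v k, f v (σ k) = z k * v k := by
  constructor
  · rintro ⟨g, rfl⟩
    exact (mem_G554_iff g.1).1 g.2
  · rintro ⟨σ, z, hz, hprod, hf⟩
    have hz0 : ∀ k, z k ≠ 0 := by
      intro k h
      have := hz k
      rw [h] at this
      norm_num at this
    have hinj : Function.Injective f := by
      intro v w h
      funext k
      have h1 := hf v k
      rw [h, hf w k] at h1
      exact (mul_left_cancel₀ (hz0 k) h1).symm
    let g : V4 ≃ₗ[ℂ] V4 := LinearEquiv.ofInjectiveEndo f hinj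
    have hg : g ∈ G554 := (mem_G554_iff g).2 ⟨σ, z, hz, hprod, hf⟩
    exact ⟨⟨g, hg⟩, rfl⟩

theorem result :
    ∃ (D : Datum) (e : D.V ≃ₗ[ℂ] (Fin 4 → ℂ)) (L : D.Rep),
      (∀ f : D.V →ₗ[ℂ] D.V, f ∈ Set.range D.op ↔
        ∃ (σ : Equiv.Perm (Fin 4)) (z : Fin 4 → ℂ), (∀ k, z k ^ 5 = 1) ∧ ∏ k, z k = 1 ∧
          ∀ v k, e (f v) (σ k) = z k * e v k) ∧
      D.IsComplexReflectionGroup ∧
      Representation.IsIrreducible L.ρ ∧
      Module.finrank ℂ L.E = 12 ∧
      (∀ c : D.Ref → ℂ, D.IsParameter c → c ≠ 0 →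
        IsSimpleModule (D.Restricted c) (D.SimpleQuotient c L) ∧
        ∀ i : ℤ, D.poincare c L i =
          if i = 0 then 12 else if i = 1 then 24 else if i = 2 then 36 else
            if i = 3 then 36 else if i = 4 then 12 else 0) ∧
      ¬ PalindromicForGenericParameter D L := by
  have hmain : ∀ c : R554.Ref → ℂ, R554.IsParameter c → c ≠ 0 →
        IsSimpleModule (R554.Restricted c) (R554.SimpleQuotient c L554) ∧
        ∀ i : ℤ, R554.poincare c L554 i = pol i := by
    intro c hc hc0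
    have h1 := param_const hc
    have h2 : c (rfR 0 1 (by decide) 0) ≠ 0 := by
      intro h
      apply hc0
      funext s
      rw [h1 s, h]
      rfl
    exact ⟨simple_G554 h1 h2, fun i => by rw [poincare_G554 h1 h2, card_eq]⟩
  refine ⟨R554, LinearEquiv.refl ℂ V4, L554, mem_range_iff, isCRG_R554, ρ0_irreducible,
    ?_, hmain, ?_⟩
  · have h := finrank_Sg 0
    rw [card_eq] at h
    exact h
  · rintro ⟨f, ⟨c, hc, hcf⟩, hall⟩
    have h1 : c = fun _ => c (rfR 0 1 (by decide) 0) := funext (param_const hc)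
    obtain ⟨t, ht, htf⟩ := exists_nonzero_param f ⟨c (rfR 0 1 (by decide) 0), by rwa [← h1]⟩
    have hpar : R554.IsParameter (fun _ => t) := fun _ _ _ _ => rfl
    have hne : (fun _ : R554.Ref => t) ≠ 0 := by
      intro h
      exact ht (congrFun h (rfR 0 1 (by decide) 0))
    have h2 := hall _ hpar htf
    have h3 : R554.poincare (fun _ => t) L554 = pol := funext (hmain _ hpar hne).2
    rw [h3] at h2
    exact pol_not_palindromic h2

end Pool.Agent.Results.MP_b4b244_al.NonPalindromic
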